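import Pool.Agent.H6.FI.TargetsB
import Pool.Agent.H6.FI.Lib

/-!
# A5T: the characters of the alternating group of degree 5 (board fi_modules), helper70
-/

set_option autoImplicit false

open scoped Classical ComplexConjugate

namespace Pool.Agent.H70.FI.A5T

open _root_.FI AMc AMt _root_.FI.Lib

/-- the ambient group -/
abbrev S5 : Type := Equiv.Perm (Fin 5)

theorem mem_A5 (σ : S5) : σ ∈ A5 ↔ Equiv.Perm.sign σ = 1 := Equiv.Perm.mem_alternatingGroup

theorem A5_conj (σ g : S5) : σ * g * σ⁻¹ ∈ A5 ↔ g ∈ A5 := by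
  rw [mem_A5, mem_A5, map_mul, map_mul, map_inv, mul_comm (Equiv.Perm.sign σ), mul_inv_cancel_right]

theorem card_A5 : Nat.card A5 = 60 := by
  rw [nat_card_alternatingGroup, Nat.card_eq_fintype_card, Fintype.card_fin]
  decide

/-- the trivial character -/
theorem r1_mem : rsf A5 (fun _ => 1) ∈ IrrS A5 := by
  refine lS10 S5 A5 _ (fun g hg => if_neg hg) ?_ ?_
  · have h := lA4.2.2 A5 (1 : A5 →* ℂˣ)
    have e : (fun n : A5 => rsf A5 (fun _ => (1 : ℂ)) n) =
        fun g : A5 => (((1 : A5 →* ℂˣ) g : ℂˣ) : ℂ) := by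
      funext n
      show (if (n : S5) ∈ A5 then (1 : ℂ) else 0) = _
      rw [if_pos n.2]
      simp
    rw [e]
    exact h
  · have e : ∀ g : S5, rsf A5 (fun _ => (1 : ℂ)) g * conj (rsf A5 (fun _ => (1 : ℂ)) g) =
        if g ∈ A5 then 1 else 0 := by
      intro g
      show (if g ∈ A5 then (1 : ℂ) else 0) * conj (if g ∈ A5 then (1 : ℂ) else 0) = _
      by_cases h : g ∈ A5
      · simp [h]
      · simp [h]
    simp_rw [e]
    rw [Finset.sum_boole, Nat.card_eq_fintype_card, Fintype.card_subtype]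

/-- at most five irreducible characters -/
theorem card_le (h2 : T_A5C) (fs : Finset (S5 → ℂ)) (hfs : ∀ θ ∈ fs, θ ∈ IrrS A5) :
    fs.card ≤ 5 := by
  choose rep hrep using (ConjClasses.exists_rep : ∀ C : ConjClasses A5, _)
  let T : (fs → ℂ) →ₗ[ℂ] (ConjClasses A5 → ℂ) :=
    { toFun := fun a C => ∑ θ : fs, a θ * θ.1 (rep C : S5)
      map_add' := by
        intro a b
        funext C
        simp only [Pi.add_apply, add_mul, Finset.sum_add_distrib]
      map_smul' := by
        intro c a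
        funext C
        simp only [Pi.smul_apply, smul_eq_mul, RingHom.id_apply, Finset.mul_sum, mul_assoc] }
  have hT : Function.Injective T := by
    rw [← LinearMap.ker_eq_bot, LinearMap.ker_eq_bot']
    intro a ha
    have h0 : ∀ C, ∑ θ : fs, a θ * θ.1 (rep C : S5) = 0 := fun C => congrFun ha C
    have h1 : ∀ g : S5, ∑ θ : fs, a θ * θ.1 g = 0 := by
      intro g
      by_cases hg : g ∈ A5
      · have h3 := hrep (ConjClasses.mk ⟨g, hg⟩)
        rw [ConjClasses.mk_eq_mk_iff_isConj, isConj_iff] at h3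
        obtain ⟨c, hc⟩ := h3
        rw [← h0 (ConjClasses.mk ⟨g, hg⟩)]
        refine Finset.sum_congr rfl fun θ _ => ?_
        have h4 := (lS1 S5 A5 θ.1 (hfs _ θ.2)).2.1 c c.2
          (rep (ConjClasses.mk ⟨g, hg⟩) : S5)
        have h5 : (c : S5) * (rep (ConjClasses.mk ⟨g, hg⟩) : S5) * (c : S5)⁻¹ = g := by
          have := congrArg Subtype.val hc
          simpa using this
        rw [h5] at h4
        rw [h4]
      · refine Finset.sum_eq_zero fun θ _ => ?_
        rw [(lS1 S5 A5 θ.1 (hfs _ θ.2)).1 g hg, mul_zero]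
    funext θ'
    have h6 : ∑ g : S5, (∑ θ : fs, a θ * θ.1 g) * conj (θ'.1 g) = 0 :=
      Finset.sum_eq_zero fun g _ => by rw [h1 g, zero_mul]
    have h7 : ∑ g : S5, (∑ θ : fs, a θ * θ.1 g) * conj (θ'.1 g) =
        a θ' * (Nat.card A5 : ℂ) := by
      calc ∑ g : S5, (∑ θ : fs, a θ * θ.1 g) * conj (θ'.1 g)
          = ∑ θ : fs, a θ * ∑ g : S5, θ.1 g * conj (θ'.1 g) := by
            simp_rw [Finset.sum_mul, Finset.mul_sum]
            rw [Finset.sum_comm]
            refine Finset.sum_congr rfl fun θ _ => Finset.sum_congr rfl fun g _ => ?_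
            ring
        _ = ∑ θ : fs, a θ * (if θ = θ' then (Nat.card A5 : ℂ) else 0) := by
            refine Finset.sum_congr rfl fun θ _ => ?_
            rw [lS2 S5 A5 θ.1 θ'.1 (hfs _ θ.2) (hfs _ θ'.2)]
            simp only [Subtype.ext_iff]
        _ = a θ' * (Nat.card A5 : ℂ) := by simp
    rw [h6, card_A5] at h7
    have h8 : ((60 : ℕ) : ℂ) ≠ 0 := by norm_num
    exact (mul_eq_zero.mp h7.symm).resolve_right h8
  have hle := LinearMap.finrank_le_finrank_of_injective hT
  have : Fintype (ConjClasses A5) := Fintype.ofFinite _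
  rw [Module.finrank_fintype_fun_eq_card, Module.finrank_fintype_fun_eq_card,
    ← Nat.card_eq_fintype_card (α := ConjClasses A5), h2] at hle
  simpa using hle

theorem cj_inj (σ : S5) {f f' : S5 → ℂ} (h : cj σ f = cj σ f') : f = f' := by
  funext g
  have := congrFun h (σ⁻¹ * g * σ)
  unfold cj at this
  have e : σ * (σ⁻¹ * g * σ) * σ⁻¹ = g := by group
  rwa [e] at this

theorem cj_one (σ : S5) (f : S5 → ℂ) : cj σ f 1 = f 1 := by
  unfold cj
  congr 1
  group

theorem cj_mem (σ : S5) {θ : S5 → ℂ} (h : θ ∈ IrrS A5) : cj σ θ ∈ IrrS A5 :=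
  lS7 S5 A5 A5 σ (fun g => (A5_conj σ g).symm) θ h

theorem cj_rsf (σ : S5) {b : S5 → ℂ} (h : ∀ g x, b (g * x * g⁻¹) = b x) :
    cj σ (rsf A5 b) = rsf A5 b := by
  funext g
  show (if σ * g * σ⁻¹ ∈ A5 then b (σ * g * σ⁻¹) else 0) = if g ∈ A5 then b g else 0
  rw [h, A5_conj]

/-- the permutations which commute with the 5-cycle are even -/
theorem comm_rotate (τ : S5) (h : τ * finRotate 5 = finRotate 5 * τ) : τ ∈ A5 := by
  have h1 : ∀ x : Fin 5, τ (x + 1) = τ x + 1 := by
    intro x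
    have := congrArg (fun p : S5 => p x) h
    simpa [Equiv.Perm.mul_apply, finRotate_apply] using this
  have e1 : τ 1 = τ 0 + 1 := h1 0
  have e2 : τ 2 = τ 1 + 1 := h1 1
  have e3 : τ 3 = τ 2 + 1 := h1 2
  have e4 : τ 4 = τ 3 + 1 := h1 3
  have key : ∃ k : ℕ, τ = (finRotate 5) ^ k := by
    have hx : ∀ x : Fin 5, τ x = x + τ 0 := by
      intro x
      have e : ∀ x : Fin 5, x = 0 ∨ x = 1 ∨ x = 2 ∨ x = 3 ∨ x = 4 := by decide
      have f1 : ∀ a : Fin 5, a = 0 + a := by decide
      have f2 : ∀ a : Fin 5, a + 1 = 1 + a := by decide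
      have f3 : ∀ a : Fin 5, a + 1 + 1 = 2 + a := by decide
      have f4 : ∀ a : Fin 5, a + 1 + 1 + 1 = 3 + a := by decide
      have f5 : ∀ a : Fin 5, a + 1 + 1 + 1 + 1 = 4 + a := by decide
      rcases e x with rfl | rfl | rfl | rfl | rfl
      · exact f1 _
      · rw [e1]
        exact f2 _
      · rw [e2, e1]
        exact f3 _
      · rw [e3, e2, e1]
        exact f4 _
      · rw [e4, e3, e2, e1]
        exact f5 _
    have hr : ∀ a x : Fin 5, (finRotate 5 ^ a.val) x = x + a := by decide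
    refine ⟨(τ 0).val, Equiv.ext fun x => ?_⟩
    rw [hr, hx]
  obtain ⟨k, hk⟩ := key
  rw [hk, mem_A5, map_pow, sign_finRotate]
  norm_num

theorem pf_A5T (h1 : T_A5B) (h2 : T_A5C) : T_A5T := by
  obtain ⟨b4, b5, hb4, hb5, d4, d5, hr4, hr5⟩ := h1
  obtain ⟨fs, hfs, hsum⟩ := lS9 S5 A5
  have hr1 := r1_mem
  set r1 := rsf A5 (fun _ => (1 : ℂ)) with hr1d
  set r4 := rsf A5 b4 with hr4d
  set r5 := rsf A5 b5 with hr5d
  have v1 : r1 1 = 1 := if_pos (one_mem A5)
  have v4 : r4 1 = 4 := by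
    rw [hr4d]
    show (if (1 : S5) ∈ A5 then b4 1 else 0) = 4
    rw [if_pos (one_mem A5), d4]
  have v5 : r5 1 = 5 := by
    rw [hr5d]
    show (if (1 : S5) ∈ A5 then b5 1 else 0) = 5
    rw [if_pos (one_mem A5), d5]
  have n14 : r1 ≠ r4 := by
    intro h
    have := congrFun h 1
    rw [v1, v4] at this
    norm_num at this
  have n15 : r1 ≠ r5 := by
    intro h
    have := congrFun h 1
    rw [v1, v5] at this
    norm_num at this
  have n45 : r4 ≠ r5 := by
    intro h
    have := congrFun h 1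
    rw [v4, v5] at this
    norm_num at this
  have hcard := card_le h2 fs (fun θ hθ => (hfs θ).mp hθ)
  set t : Finset (S5 → ℂ) := {r1, r4, r5} with ht
  have hts : t ⊆ fs := by
    intro θ hθ
    rw [ht, Finset.mem_insert, Finset.mem_insert, Finset.mem_singleton] at hθ
    rw [hfs]
    rcases hθ with rfl | rfl | rfl
    · exact hr1
    · exact hr4
    · exact hr5
  have htc : t.card = 3 := Finset.card_eq_three.mpr ⟨r1, r4, r5, n14, n15, n45, ht⟩
  have htsum : ∑ θ ∈ t, θ 1 * θ 1 = 42 := by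
    rw [ht, Finset.sum_insert (by simp [n14, n15]), Finset.sum_insert (by simp [n45]),
      Finset.sum_singleton, v1, v4, v5]
    norm_num
  have hRsum : ∑ θ ∈ fs \ t, θ 1 * θ 1 = 18 := by
    have := Finset.sum_sdiff (f := fun θ : S5 → ℂ => θ 1 * θ 1) hts
    rw [htsum, hsum, card_A5] at this
    push_cast at this
    linear_combination this
  have hRc : (fs \ t).card ≤ 2 := by
    rw [Finset.card_sdiff_of_subset hts]
    omega
  have hdeg : ∀ θ ∈ fs, ∃ d : ℕ, 0 < d ∧ θ 1 = d := fun θ hθ =>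
    (lS1 S5 A5 θ ((hfs θ).mp hθ)).2.2.1
  -- exactly two characters of degree 3 are left
  have hex : ∃ c3 c3' : S5 → ℂ, c3 ≠ c3' ∧ fs \ t = {c3, c3'} ∧ c3 1 = 3 ∧ c3' 1 = 3 := by
    have hc : (fs \ t).card = 0 ∨ (fs \ t).card = 1 ∨ (fs \ t).card = 2 := by omega
    rcases hc with hc | hc | hc
    · rw [Finset.card_eq_zero] at hc
      rw [hc, Finset.sum_empty] at hRsum
      norm_num at hRsum
    · obtain ⟨a, ha⟩ := Finset.card_eq_one.mp hc
      have haf : a ∈ fs := (Finset.mem_sdiff.mp (ha ▸ Finset.mem_singleton_self a)).1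
      obtain ⟨d, hd, hd1⟩ := hdeg a haf
      rw [ha, Finset.sum_singleton, hd1] at hRsum
      have h3 : d * d = 18 := by exact_mod_cast hRsum
      have h4 : d ≤ 4 := by nlinarith
      interval_cases d <;> omega
    · obtain ⟨a, b, hab, habe⟩ := Finset.card_eq_two.mp hc
      have haf : a ∈ fs := (Finset.mem_sdiff.mp (by rw [habe]; simp : a ∈ fs \ t)).1
      have hbf : b ∈ fs := (Finset.mem_sdiff.mp (by rw [habe]; simp : b ∈ fs \ t)).1
      obtain ⟨d, hd, hd1⟩ := hdeg a haf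
      obtain ⟨d', hd', hd1'⟩ := hdeg b hbf
      rw [habe, Finset.sum_pair hab, hd1, hd1'] at hRsum
      have h3 : d * d + d' * d' = 18 := by exact_mod_cast hRsum
      have h4 : d ≤ 4 := by nlinarith
      have h5 : d' ≤ 4 := by nlinarith
      have h6 : d = 3 ∧ d' = 3 := by
        interval_cases d <;> interval_cases d' <;> omega
      refine ⟨a, b, hab, habe, ?_, ?_⟩
      · rw [hd1, h6.1]
        norm_num
      · rw [hd1', h6.2]
        norm_num
  obtain ⟨c3, c3', hne, hpair, w3, w3'⟩ := hex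
  have hall : ∀ β, β ∈ IrrS A5 ↔ β = r1 ∨ β = r4 ∨ β = r5 ∨ β = c3 ∨ β = c3' := by
    intro β
    rw [← hfs, ← Finset.sdiff_union_of_subset hts, hpair, Finset.mem_union, ht]
    simp only [Finset.mem_insert, Finset.mem_singleton]
    tauto
  have hc3 : c3 ∈ IrrS A5 := (hall c3).mpr (by tauto)
  have hc3' : c3' ∈ IrrS A5 := (hall c3').mpr (by tauto)
  have hthree : ∀ β ∈ IrrS A5, β 1 = 3 → β = c3 ∨ β = c3' := by
    intro β hβ hβ1
    rcases (hall β).mp hβ with h | h | h | h | h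
    · rw [h, v1] at hβ1
      norm_num at hβ1
    · rw [h, v4] at hβ1
      norm_num at hβ1
    · rw [h, v5] at hβ1
      norm_num at hβ1
    · exact Or.inl h
    · exact Or.inr h
  have hcl4 : ∀ g x, b4 (g * x * g⁻¹) = b4 x :=
    ((lA3 S5).2.1 b4 ((lA3 S5).1 b4 hb4).1).1
  have hcl5 : ∀ g x, b5 (g * x * g⁻¹) = b5 x :=
    ((lA3 S5).2.1 b5 ((lA3 S5).1 b5 hb5).1).1
  have hodd0 : ∀ σ, σ ∉ A5 → cj σ c3 ≠ c3 := by
    intro σ hσ hfix
    have hfix' : cj σ c3' = c3' := by
      rcases hthree _ (cj_mem σ hc3') (by rw [cj_one, w3']) with h | h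
      · exact absurd (cj_inj σ (h.trans hfix.symm)) hne.symm
      · exact h
    have hfixall : ∀ θ ∈ IrrS A5, cj σ θ = θ := by
      intro θ hθ
      rcases (hall θ).mp hθ with h | h | h | h | h
      · rw [h]
        exact cj_rsf σ (fun _ _ => rfl)
      · rw [h]
        exact cj_rsf σ hcl4
      · rw [h]
        exact cj_rsf σ hcl5
      · rw [h]
        exact hfix
      · rw [h]
        exact hfix'
    -- the indicator of the class of the 5-cycle
    let f : S5 → ℂ := fun g => if ∃ n ∈ A5, g = n * finRotate 5 * n⁻¹ then 1 else 0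
    have hcA : finRotate 5 ∈ A5 := by
      rw [mem_A5, sign_finRotate]
      norm_num
    have hf0 : ∀ g, g ∉ A5 → f g = 0 := by
      intro g hg
      refine if_neg ?_
      rintro ⟨n, hn, rfl⟩
      exact hg ((A5_conj n _).mpr hcA)
    have hfc : ∀ n ∈ A5, ∀ g, f (n * g * n⁻¹) = f g := by
      intro n hn g
      have : (∃ m ∈ A5, n * g * n⁻¹ = m * finRotate 5 * m⁻¹) ↔
          ∃ m ∈ A5, g = m * finRotate 5 * m⁻¹ := by
        constructor
        · rintro ⟨m, hm, e⟩
          refine ⟨n⁻¹ * m, A5.mul_mem (A5.inv_mem hn) hm, ?_⟩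
          calc g = n⁻¹ * (n * g * n⁻¹) * n := by group
            _ = n⁻¹ * (m * finRotate 5 * m⁻¹) * n := by rw [e]
            _ = _ := by group
        · rintro ⟨m, hm, e⟩
          refine ⟨n * m, A5.mul_mem hn hm, ?_⟩
          rw [e]
          group
      show (if _ then (1 : ℂ) else 0) = if _ then (1 : ℂ) else 0
      simp only [this]
    have hz : (fun g => f g - cj σ f g) = 0 := by
      refine lS3 S5 A5 _ ?_ ?_ ?_
      · intro g hg
        have h3 : σ * g * σ⁻¹ ∉ A5 := fun h => hg ((A5_conj σ g).mp h)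
        show f g - f (σ * g * σ⁻¹) = 0
        rw [hf0 g hg, hf0 _ h3, sub_zero]
      · intro n hn g
        show f (n * g * n⁻¹) - f (σ * (n * g * n⁻¹) * σ⁻¹) = f g - f (σ * g * σ⁻¹)
        have h4 : σ * (n * g * n⁻¹) * σ⁻¹ =
            (σ * n * σ⁻¹) * (σ * g * σ⁻¹) * (σ * n * σ⁻¹)⁻¹ := by group
        rw [hfc n hn g, h4, hfc _ ((A5_conj σ n).mpr hn)]
      · intro θ hθ
        have h5 : ∑ g : S5, cj σ f g * conj (θ g) = ∑ g : S5, f g * conj (θ g) := by
          rw [← Equiv.sum_comp (MulAut.conj σ).toEquiv (fun g => f g * conj (θ g))]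
          refine Finset.sum_congr rfl fun g _ => ?_
          have h6 : (MulAut.conj σ).toEquiv g = σ * g * σ⁻¹ := rfl
          have h7 : θ (σ * g * σ⁻¹) = θ g := congrFun (hfixall θ hθ) g
          rw [h6, h7]
          rfl
        simp only [sub_mul, Finset.sum_sub_distrib]
        rw [h5, sub_self]
    have h8 := congrFun hz (finRotate 5)
    have h9 : f (finRotate 5) = 1 := if_pos ⟨1, one_mem A5, by group⟩
    have h10 : f (σ * finRotate 5 * σ⁻¹) = 1 := by
      have h11 : f (finRotate 5) - f (σ * finRotate 5 * σ⁻¹) = 0 := h8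
      rw [h9] at h11
      linear_combination -h11
    have h12 : ∃ n ∈ A5, σ * finRotate 5 * σ⁻¹ = n * finRotate 5 * n⁻¹ := by
      by_contra hcon
      have : f (σ * finRotate 5 * σ⁻¹) = 0 := if_neg hcon
      rw [h10] at this
      exact one_ne_zero this
    obtain ⟨n, hn, e⟩ := h12
    have h13 : (n⁻¹ * σ) * finRotate 5 = finRotate 5 * (n⁻¹ * σ) := by
      calc (n⁻¹ * σ) * finRotate 5 = n⁻¹ * (σ * finRotate 5 * σ⁻¹) * σ := by group
        _ = n⁻¹ * (n * finRotate 5 * n⁻¹) * σ := by rw [e]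
        _ = finRotate 5 * (n⁻¹ * σ) := by group
    have h14 := comm_rotate _ h13
    apply hσ
    have h15 : σ = n * (n⁻¹ * σ) := by group
    rw [h15]
    exact A5.mul_mem hn h14
  have hodd1 : ∀ σ, σ ∉ A5 → cj σ c3 = c3' := by
    intro σ hσ
    rcases hthree _ (cj_mem σ hc3) (by rw [cj_one, w3]) with h | h
    · exact absurd h (hodd0 σ hσ)
    · exact h
  refine ⟨b4, b5, c3, c3', ⟨hb4, hb5, d4, d5, w3, w3', hne, hall, fun σ hσ => ⟨hodd1 σ hσ, ?_⟩⟩⟩
  rcases hthree _ (cj_mem σ hc3') (by rw [cj_one, w3']) with h | h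
  · exact h
  · exact absurd (cj_inj σ (h.trans (hodd1 σ hσ).symm)) hne.symm

end Pool.Agent.H70.FI.A5T
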