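import Pool.Agent.H6.FI.TargetsA

/-!
# ABN: solvable groups have abelian normal subgroups (board fi_modules), helper70
-/

set_option autoImplicit false

open scoped Classical commutatorElement

namespace Pool.Agent.H70.FI

open _root_.FI

theorem pf_ABN : T_ABN := by
  intro R _ _ _ hS
  have hex : ∃ n, derivedSeries R n = ⊥ := hS.solvable
  have hn := Nat.find_spec hex
  set n := Nat.find hex with hndef
  have hn0 : n ≠ 0 := by
    intro h0
    rw [h0, derivedSeries_zero] at hn
    exact top_ne_bot hn
  obtain ⟨m, hm⟩ := Nat.exists_eq_succ_of_ne_zero hn0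
  refine ⟨derivedSeries R m, derivedSeries_normal R m, ?_, ?_⟩
  · intro a ha b hb
    have h1 : ⁅a, b⁆ ∈ derivedSeries R n := by
      rw [hm, Nat.succ_eq_add_one, derivedSeries_succ]
      exact Subgroup.commutator_mem_commutator ha hb
    rw [hn, Subgroup.mem_bot] at h1
    exact commutatorElement_eq_one_iff_mul_comm.mp h1
  · intro h
    have h2 : n ≤ m := Nat.find_min' hex h
    omega

end Pool.Agent.H70.FI
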