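import Pool.Agent.H6.FI.TargetsA

/-!
# AUT: automorphisms of a cyclic normal subgroup (board fi_modules), helper70
-/

set_option autoImplicit false

open scoped Classical

namespace Pool.Agent.H70.FI

open _root_.FI

theorem pf_AUT : T_AUT := by
  intro R _ _ U hN hC hU
  haveI := hN
  haveI := hC
  have h1 : (MulAut.conjNormal : R →* MulAut U).ker ≤ Subgroup.centralizer (U : Set R) := by
    intro x hx
    rw [MonoidHom.mem_ker] at hx
    rw [Subgroup.mem_centralizer_iff]
    intro u hu
    have h2 : (MulAut.conjNormal x : MulAut U) ⟨u, hu⟩ = ⟨u, hu⟩ := by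
      rw [hx]
      rfl
    have h3 : x * u * x⁻¹ = u := by
      have := congrArg Subtype.val h2
      rwa [MulAut.conjNormal_apply] at this
    calc u * x = x * u * x⁻¹ * x := by rw [h3]
      _ = x * u := by group
  have h2 := Subgroup.index_dvd_of_le h1
  rw [Subgroup.index_ker] at h2
  have h3 : Nat.card (MulAut.conjNormal : R →* MulAut U).range ≤ Nat.card (MulAut U) :=
    Nat.card_le_card_of_injective Subtype.val Subtype.val_injective
  rw [IsCyclic.card_mulAut] at h3
  have h4 : (Nat.card U).totient < Nat.card U := Nat.totient_lt _ (by omega)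
  have h5 : 0 < Nat.card (MulAut.conjNormal : R →* MulAut U).range := Nat.card_pos
  have h6 := Nat.le_of_dvd h5 h2
  omega

end Pool.Agent.H70.FI
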