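import Pool.Agent.H6.FI.TargetsA

/-!
# CHP: the kernel of the action on the blocks (board fi_modules), helper70
-/

set_option autoImplicit false

open scoped Classical

namespace Pool.Agent.H70.FI

open _root_.FI

theorem pf_CHP : T_CHP := by
  intro R V ι _ _ _ _ _ ρ B W b hsup hinv hb
  have : Fintype ι := Fintype.ofFinite ι
  rw [finprod_eq_prod_of_fintype]
  set K : Finset ι → Subgroup R := fun s => (⨅ c ∈ s, Ck ρ (W c)) ⊓ B with hK
  have hKB : ∀ s, K s ≤ B := fun s => inf_le_right
  have hmem : ∀ s r, r ∈ K s ↔ (∀ c ∈ s, r ∈ Ck ρ (W c)) ∧ r ∈ B := by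
    intro s r
    simp only [hK, Subgroup.mem_inf, Subgroup.mem_iInf]
  have hnorm : ∀ s, ∀ x ∈ B, ∀ y ∈ K s, x * y * x⁻¹ ∈ K s := by
    intro s x hx y hy
    rw [hmem] at hy ⊢
    refine ⟨fun c hc => ?_, B.mul_mem (B.mul_mem hx hy.2) (B.inv_mem hx)⟩
    rw [mem_Ck]
    intro w hw
    have h1 : ρ x⁻¹ w ∈ W c := hinv c x⁻¹ (B.inv_mem hx) w hw
    have h2 : ρ y (ρ x⁻¹ w) = ρ x⁻¹ w := (mem_Ck.mp (hy.1 c hc)) _ h1
    have h3 : ρ (x * y * x⁻¹) w = ρ x (ρ y (ρ x⁻¹ w)) := by
      rw [map_mul, map_mul]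
      rfl
    have h4 : ρ x (ρ x⁻¹ w) = w := by
      have : ρ (x * x⁻¹) w = ρ x (ρ x⁻¹ w) := by
        rw [map_mul]
        rfl
      rw [← this, mul_inv_cancel, map_one]
      rfl
    rw [h3, h2, h4]
  have hb1 : ∀ c, 1 ≤ b c := by
    intro c
    have h := hb c ⊥ bot_le (by
      intro x _ y hy
      rw [Subgroup.mem_bot] at hy ⊢
      rw [hy]
      group)
    rw [Subgroup.relIndex_bot_right] at h
    exact_mod_cast h
  have key : ∀ s : Finset ι, ((K s).relIndex B : ℝ) ≤ ∏ c ∈ s, b c := by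
    intro s
    induction s using Finset.induction_on with
    | empty =>
      have : K ∅ = B := by
        ext r
        rw [hmem]
        simp
      rw [this, Subgroup.relIndex_self]
      simp
    | insert a s ha ih =>
      have h1 : K (insert a s) = Ck ρ (W a) ⊓ K s := by
        ext r
        rw [hmem, Subgroup.mem_inf, hmem]
        simp only [Finset.mem_insert, forall_eq_or_imp]
        tauto
      have h2 : (K (insert a s)).relIndex (K s) * (K s).relIndex B =
          (K (insert a s)).relIndex B := by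
        refine Subgroup.relIndex_mul_relIndex _ _ _ ?_ (hKB s)
        rw [h1]
        exact inf_le_right
      have h3 : (K (insert a s)).relIndex (K s) = (Ck ρ (W a)).relIndex (K s) := by
        rw [h1, Subgroup.inf_relIndex_right]
      rw [← h2, h3, Finset.prod_insert ha]
      push_cast
      exact mul_le_mul (hb a (K s) (hKB s) (hnorm s)) ih (by positivity)
        (le_trans zero_le_one (hb1 a))
  have hle : K Finset.univ ≤ Ck ρ ⊤ := by
    intro r hr
    rw [hmem] at hr
    rw [mem_Ck]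
    intro w _
    have h5 : (⊤ : AddSubgroup V) ≤ AddMonoidHom.eqLocus (ρ r : V →+ V) (AddMonoidHom.id V) := by
      rw [← hsup]
      refine iSup_le fun c v hv => ?_
      exact (mem_Ck.mp (hr.1 c (Finset.mem_univ c))) v hv
    exact h5 (AddSubgroup.mem_top w)
  have hdvd : (Ck ρ ⊤).relIndex B ∣ (K Finset.univ).relIndex B :=
    Subgroup.relIndex_dvd_of_le_left B hle
  have hne : (K Finset.univ).relIndex B ≠ 0 := Subgroup.FiniteIndex.index_ne_zero
  calc ((Ck ρ ⊤).relIndex B : ℝ) ≤ ((K Finset.univ).relIndex B : ℝ) := by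
        exact_mod_cast Nat.le_of_dvd (Nat.pos_of_ne_zero hne) hdvd
    _ ≤ ∏ c, b c := key _

end Pool.Agent.H70.FI
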